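import Pool.Agent.H90.GLB.UNG

/-!
# Board glb_modules, module MM: the dual Mellin transform
-/

set_option autoImplicit false

open NumberField NumberField.InfinitePlace NumberField.Units
  NumberField.Units.dirichletUnitTheorem MeasureTheory Set Filter Complex
open scoped nonZeroDivisors ENNReal

namespace Pool.Agent.H90.GLB

open Pool.Agent.H25.HK Pool.Agent.H23.LB Pool.Agent.H23.LC Pool.Agent.H20.HKI
open Pool.Agent.H28.RC (Rep ft idl)
open Pool.Agent.H19.RC (Par sumM)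

section
open scoped Classical

variable (K : Type) [Field K] [NumberField K]

theorem ph_neg (ν : InfinitePlace K → ℝ) (x : K) : ph (-ν) x = (starRingEnd ℂ) (ph ν x) := by
  unfold ph
  rw [← Complex.exp_conj]
  congr 1
  rw [map_mul, Complex.conj_ofReal, Complex.conj_I]
  have h1 : (∑ v : InfinitePlace K, (v.mult : ℝ) * (-ν) v * Real.log (v x)) =
      -(∑ v : InfinitePlace K, (v.mult : ℝ) * ν v * Real.log (v x)) := by
    rw [← Finset.sum_neg_distrib]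
    refine Finset.sum_congr rfl fun v _ => ?_
    rw [Pi.neg_apply]
    ring
  rw [h1]
  push_cast
  ring

theorem ec_neg_neg (ν : InfinitePlace K → ℝ) (z : logSpace K) : ec K (-ν) (-z) = ec K ν z := by
  unfold ec
  congr 3
  unfold pr
  congr 1
  refine Finset.sum_congr rfl fun w _ => ?_
  simp only [Pi.neg_apply]
  ring

/-- the Gamma integral for `-k` and `-ν` -/
theorem Qk_neg (hGK : U_GK) (hAG : U_AG) (k : InfinitePlace K → ℤ)
    (hk : ∀ v : InfinitePlace K, v.IsReal → k v = 0 ∨ k v = 1) (ν : InfinitePlace K → ℝ)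
    (hν : ∑ v, (v.mult : ℝ) * ν v = 0) (s : ℂ) (hs : 0 < s.re) (x : K) (hx : x ≠ 0) :
    ∫ p, Qk K (-k) (-ν) s x p =
      ((2 : ℂ) ^ (nrRealPlaces K + nrComplexPlaces K))⁻¹ * gG K k (-ν) s *
        (((|Algebra.norm ℚ x| : ℚ) : ℝ) : ℂ) ^ (-s) *
        ((starRingEnd ℂ) (ag k x) * (starRingEnd ℂ) (ph ν x)) := by
  have hν' : ∑ v, (v.mult : ℝ) * (-ν) v = 0 := by
    simp only [Pi.neg_apply, mul_neg, Finset.sum_neg_distrib, hν, neg_zero]
  have hg := (hGK K k x (-ν) s hk hx hν' hs).2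
  have hg' : ∫ p, Qk K k (-ν) s x p =
      ((2 : ℂ) ^ (nrRealPlaces K + nrComplexPlaces K))⁻¹ * gG K k (-ν) s *
        (((|Algebra.norm ℚ x| : ℚ) : ℝ) : ℂ) ^ (-s) * (ag k x * ph (-ν) x) := hg
  have ha : (starRingEnd ℂ) (ag k x) * ag k x = 1 := by
    rw [mul_comm, Complex.mul_conj, Complex.normSq_eq_norm_sq, (hAG K k).2.1 _ hx]
    norm_num
  have hQ : ∀ p, Qk K (-k) (-ν) s x p =
      ((starRingEnd ℂ) (ag k x)) ^ 2 * Qk K k (-ν) s x p := by
    intro p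
    unfold Qk
    rw [wk_eq, wk_eq, wa_neg, (hAG K k).2.2.2.1 x hx]
    calc ((wa K k (yc K p.1 p.2) x : ℝ) : ℂ) * (starRingEnd ℂ) (ag k x) *
          ((Real.exp (-Real.pi * qK K (yc K p.1 p.2) x) : ℝ) : ℂ) *
          (cexp (s * p.1) * ec K (-ν) p.2)
        = 1 * (((wa K k (yc K p.1 p.2) x : ℝ) : ℂ) * (starRingEnd ℂ) (ag k x) *
          ((Real.exp (-Real.pi * qK K (yc K p.1 p.2) x) : ℝ) : ℂ) *
          (cexp (s * p.1) * ec K (-ν) p.2)) := by rw [one_mul]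
      _ = _ := by
        rw [← ha]
        ring
  simp only [hQ]
  rw [integral_const_mul, hg', ph_neg]
  calc (starRingEnd ℂ) (ag k x) ^ 2 * (((2 : ℂ) ^ (nrRealPlaces K + nrComplexPlaces K))⁻¹ *
        gG K k (-ν) s * (((|Algebra.norm ℚ x| : ℚ) : ℝ) : ℂ) ^ (-s) *
        (ag k x * (starRingEnd ℂ) (ph ν x)))
      = ((starRingEnd ℂ) (ag k x) * ag k x) *
        (((2 : ℂ) ^ (nrRealPlaces K + nrComplexPlaces K))⁻¹ * gG K k (-ν) s *
        (((|Algebra.norm ℚ x| : ℚ) : ℝ) : ℂ) ^ (-s) *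
        ((starRingEnd ℂ) (ag k x) * (starRingEnd ℂ) (ph ν x))) := by ring
    _ = _ := by rw [ha, one_mul]

end

/-- (MM) the dual Mellin transform -/
theorem pf_MM (hGK : U_GK) (hSK : U_SK) (hDC : U_DC) (_hCG : U_CG) (hAG : U_AG)
    (hPU : Pool.Agent.H23.LB.T_PU) : U_MM := by
  classical
  intro K _ _ f hf D χ c s hs
  have hs0 : 0 < s.re := by linarith
  obtain ⟨hD1, hD2⟩ := hDC K f hf D χ
  have hM0 : D.M c ≠ 0 := D.reps.1 c
  have hfM : (f : FI K) * D.M c ≠ 0 := by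
    refine mul_ne_zero ?_ hM0
    rwa [Ne, FractionalIdeal.coeIdeal_eq_zero]
  set L : FI K := du K ((f : FI K) * D.M c) with hLdef
  have hL : L ≠ 0 := (b_DU K _ hfM).1
  obtain ⟨X, hX, hX1, hXM, hXu⟩ := Pool.Agent.H19.RC.bi2 K L hL
  have hP : Par L X := ⟨hX, fun J => (hX1 J).1, hXM, hXu⟩
  have hXM1 : ∀ I, X I ∈ L := by
    intro I
    have := hP.XM I 1
    simpa using this
  have hLn : (0 : ℝ) < (FractionalIdeal.absNorm L : ℝ) := (b_DU K L hL).2.2.2.1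
  have hau : ∀ x : K, x ≠ 0 → (starRingEnd ℂ) (ag χ.k x) * ag χ.k x = 1 := by
    intro x hx
    rw [mul_comm, Complex.mul_conj, Complex.normSq_eq_norm_sq, (hAG K χ.k).2.1 _ hx]
    norm_num
  have hpu : ∀ x : K, (starRingEnd ℂ) (ph χ.ν x) * ph χ.ν x = 1 := by
    intro x
    rw [mul_comm, Complex.mul_conj, Complex.normSq_eq_norm_sq, (hPU K).2.2.2.2.2.2 χ.ν x]
    norm_num
  -- the coefficients
  have hch : ∀ x ∈ L, x ≠ 0 → ch D χ c x = ((Real.sqrt (Nf K f) : ℝ) : ℂ) *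
      cd D χ (idl K L x) * (ag χ.k x * ph χ.ν x) := by
    intro x hx hx0
    rw [hD2 c x hx hx0]
    calc ch D χ c x = ((starRingEnd ℂ) (ag χ.k x) * ag χ.k x) *
          ((starRingEnd ℂ) (ph χ.ν x) * ph χ.ν x) * ch D χ c x := by
          rw [hau x hx0, hpu x, one_mul, one_mul]
      _ = _ := by ring
  have hB : ∀ x ∈ L, ‖ch D χ c x‖ ≤ max ‖ch D χ c 0‖
      (Real.sqrt (Nf K f) * Real.sqrt (Nf K f)) := by
    intro x hx
    by_cases hx0 : x = 0
    · rw [hx0]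
      exact le_max_left _ _
    · refine le_trans ?_ (le_max_right _ _)
      rw [hch x hx hx0, norm_mul, norm_mul, norm_mul (ag χ.k x), (hAG K χ.k).2.1 x hx0,
        (hPU K).2.2.2.2.2.2 χ.ν x, mul_one, mul_one, Complex.norm_real,
        Real.norm_of_nonneg (Real.sqrt_nonneg _)]
      exact mul_le_mul_of_nonneg_left (hD1 _) (Real.sqrt_nonneg _)
  have hcu : ∀ u : (𝓞 K)ˣ, ∀ x ∈ L, x ≠ 0 → ch D χ c ((u : K) * x) =
      (starRingEnd ℂ) (ag (-χ.k) (u : K)) * (starRingEnd ℂ) (ph (-χ.ν) (u : K)) *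
        ch D χ c x := by
    intro u x hx hx0
    have hu : (u : K) ≠ 0 := by simp
    have hux : (u : K) * x ≠ 0 := mul_ne_zero hu hx0
    obtain ⟨p, hp, -⟩ := hP.un x hx hx0
    have hid1 : idl K L x = p.1.1 := by
      rw [hp]
      exact hP.idl_eq d_ID hL p
    have hid2 : idl K L ((u : K) * x) = p.1.1 := by
      have h := hP.idl_eq d_ID hL (p.1, u * p.2)
      rw [hp, ← mul_assoc]
      simpa using h
    have huxM : (u : K) * x ∈ L := by
      have h := hP.XM p.1 (u * p.2)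
      rw [hp, ← mul_assoc]
      simpa using h
    rw [hch _ huxM hux, hch x hx hx0, hid1, hid2, (hAG K χ.k).1 _ _ hu hx0,
      (hPU K).2.2.2.2.2.1 χ.ν _ _ hu hx0, (hAG K χ.k).2.2.2.1 _ hu, ph_neg,
      Complex.conj_conj, Complex.conj_conj]
    ring
  obtain ⟨-, hi, hv⟩ := core K hGK hSK hAG hPU χ.k (-χ.k) χ.real_k (Or.inr rfl) (-χ.ν) L hL
    (ch D χ c) _ hB hcu X hP (fun I => (hX1 I).2) s hs
  have hct : ct K (-χ.k) (ch D χ c) = if χ.k = 0 then ch D χ c 0 else 0 := by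
    unfold ct
    simp only [neg_eq_zero]
  have hk0 : k0' D χ c = ct K (-χ.k) (ch D χ c) * ∫ z in Fd K, ec K χ.ν z := by
    rw [hct]
    unfold k0'
    split_ifs with h
    · rfl
    · rw [zero_mul]
  have htk := (hSK K (-χ.k)).2.2.2 L (ch D χ c) hL ⟨_, hB⟩
  have hgg : (fun q : ℝ × logSpace K => gg K (-χ.k) (-χ.ν) L (ch D χ c) s (q.1, -q.2)) =
      fun q => cexp (s * q.1) * ec K χ.ν q.2 *
      ((fun τ z => tk K (-χ.k) L (ch D χ c) (yc K τ (-z))) q.1 q.2 -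
        ct K (-χ.k) (ch D χ c)) := by
    funext q
    unfold gg
    simp only
    rw [ec_neg_neg]
  rw [hgg] at hi hv
  have hm := mellin_core K hPU χ.ν (fun τ z => tk K (-χ.k) L (ch D χ c) (yc K τ (-z)))
    (ct K (-χ.k) (ch D χ c)) s
    (fun τ => (htk.comp (Pool.Agent.H19.RC.continuous_yc b_YC τ)).comp continuous_neg) hi
  have hfk : (fun t => fk' D χ c t - k0' D χ c) = fun t => (∫ z in Fd K, ec K χ.ν z *
      (fun τ z => tk K (-χ.k) L (ch D χ c) (yc K τ (-z))) (Real.log t) z) -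
        ct K (-χ.k) (ch D χ c) * ∫ z in Fd K, ec K χ.ν z := by
    funext t
    rw [hk0]
    rfl
  rw [hfk, hm, hv]
  have hval : ∀ I : {I : Ideal (𝓞 K) // Pri K L I},
      ch D χ c (X I) * ∫ p, Qk K (-χ.k) (-χ.ν) s (X I) p =
      (((2 : ℂ) ^ (nrRealPlaces K + nrComplexPlaces K))⁻¹ * gG K χ.k (-χ.ν) s *
        ((FractionalIdeal.absNorm L : ℝ) : ℂ) ^ (-s) * ((Real.sqrt (Nf K f) : ℝ) : ℂ)) *
        (cd D χ I.1 * (Ideal.absNorm I.1 : ℂ) ^ (-s)) := by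
    intro I
    have hx0 := hP.X0 I
    have hid : idl K L (X I) = I.1 := by
      have := hP.idl_eq d_ID hL (I, 1)
      simpa using this
    have hn : (((|Algebra.norm ℚ (X I)| : ℚ) : ℝ) : ℂ) ^ (-s) =
        (Ideal.absNorm I.1 : ℂ) ^ (-s) * ((FractionalIdeal.absNorm L : ℝ) : ℂ) ^ (-s) := by
      rw [(hX1 I).2, Complex.ofReal_mul, Complex.mul_cpow_ofReal_nonneg (by positivity) hLn.le,
        Complex.ofReal_natCast]
    rw [Qk_neg K hGK hAG χ.k χ.real_k χ.ν χ.norm_zero s hs0 _ hx0, hch _ (hXM1 I) hx0, hid, hn]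
    calc ((Real.sqrt (Nf K f) : ℝ) : ℂ) * cd D χ I.1 * (ag χ.k (X I) * ph χ.ν (X I)) *
          (((2 : ℂ) ^ (nrRealPlaces K + nrComplexPlaces K))⁻¹ * gG K χ.k (-χ.ν) s *
          ((Ideal.absNorm I.1 : ℂ) ^ (-s) * ((FractionalIdeal.absNorm L : ℝ) : ℂ) ^ (-s)) *
          ((starRingEnd ℂ) (ag χ.k (X I)) * (starRingEnd ℂ) (ph χ.ν (X I))))
        = ((starRingEnd ℂ) (ag χ.k (X I)) * ag χ.k (X I)) *
          ((starRingEnd ℂ) (ph χ.ν (X I)) * ph χ.ν (X I)) *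
          ((((2 : ℂ) ^ (nrRealPlaces K + nrComplexPlaces K))⁻¹ * gG K χ.k (-χ.ν) s *
          ((FractionalIdeal.absNorm L : ℝ) : ℂ) ^ (-s) * ((Real.sqrt (Nf K f) : ℝ) : ℂ)) *
          (cd D χ I.1 * (Ideal.absNorm I.1 : ℂ) ^ (-s))) := by ring
      _ = _ := by rw [hau _ hx0, hpu, one_mul, one_mul]
  simp only [hval]
  rw [tsum_mul_left]
  unfold cw
  push_cast
  ring

end Pool.Agent.H90.GLB
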