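import Pool.Agent.H90.GLB.UNG

/-!
# Board glb_modules, module MK: the Mellin transform
-/

set_option autoImplicit false

open NumberField NumberField.InfinitePlace NumberField.Units
  NumberField.Units.dirichletUnitTheorem MeasureTheory Set Filter Complex
open scoped nonZeroDivisors ENNReal

namespace Pool.Agent.H90.GLB

open Pool.Agent.H25.HK Pool.Agent.H23.LB Pool.Agent.H23.LC Pool.Agent.H20.HKI
open Pool.Agent.H28.RC (Rep ft idl)
open Pool.Agent.H19.RC (Par sumM)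

/-- (MK) the Mellin transform -/
theorem pf_MK (hGK : U_GK) (hSK : U_SK) (hCG : U_CG) (hAG : U_AG)
    (hPU : Pool.Agent.H23.LB.T_PU) : U_MK := by
  classical
  intro K _ _ f hf χ M hM s hs
  have hs0 : 0 < s.re := by linarith
  obtain ⟨X, hX, hX1, hXM, hXu⟩ := Pool.Agent.H19.RC.bi2 K M hM
  have hP : Par M X := ⟨hX, fun J => (hX1 J).1, hXM, hXu⟩
  have hXM1 : ∀ I, X I ∈ M := by
    intro I
    have := hP.XM I 1
    simpa using this
  have hMn : (0 : ℝ) < (FractionalIdeal.absNorm M : ℝ) := (b_DU K M hM).2.2.2.1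
  obtain ⟨h1, h2, h3, -⟩ := hCG K f χ M hf hM
  obtain ⟨⟨hi, hv⟩, -⟩ := core K hGK hSK hAG hPU χ.k χ.k χ.real_k (Or.inl rfl) χ.ν M hM
    (cg χ M) 1 h2 (fun u x hx _ => h3 u x hx) X hP (fun I => (hX1 I).2) s hs
  have hk0 : k0 χ M = ct K χ.k (cg χ M) * ∫ z in Fd K, ec K χ.ν z := by
    unfold k0 ct
    split_ifs with h
    · rfl
    · rw [zero_mul]
  have htk := (hSK K χ.k).2.2.2 M (cg χ M) hM ⟨1, h2⟩
  have hm := mellin_core K hPU χ.ν (fun τ z => tk K χ.k M (cg χ M) (yc K τ z))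
    (ct K χ.k (cg χ M)) s (fun τ => htk.comp (Pool.Agent.H19.RC.continuous_yc b_YC τ)) hi
  have hfk : (fun t => fk χ M t - k0 χ M) = fun t => (∫ z in Fd K, ec K χ.ν z *
      (fun τ z => tk K χ.k M (cg χ M) (yc K τ z)) (Real.log t) z) -
        ct K χ.k (cg χ M) * ∫ z in Fd K, ec K χ.ν z := by
    funext t
    rw [hk0]
    rfl
  have hv' : ∫ q : ℝ × logSpace K, cexp (s * q.1) * ec K χ.ν q.2 *
      ((fun τ z => tk K χ.k M (cg χ M) (yc K τ z)) q.1 q.2 - ct K χ.k (cg χ M))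
        ∂(Pool.Agent.H47.GLA.mu K) =
      (torsionOrder K : ℂ) * ∑' I, cg χ M (X I) * ∫ p, Qk K χ.k χ.ν s (X I) p := hv
  rw [hfk, hm, hv']
  have hval : ∀ I : {I : Ideal (𝓞 K) // Pri K M I},
      cg χ M (X I) * ∫ p, Qk K χ.k χ.ν s (X I) p =
      (((2 : ℂ) ^ (nrRealPlaces K + nrComplexPlaces K))⁻¹ * gG K χ.k χ.ν s *
        ((FractionalIdeal.absNorm M : ℝ) : ℂ) ^ (-s)) *
        (χ.ψ I.1 * (Ideal.absNorm I.1 : ℂ) ^ (-s)) := by
    intro I
    have hx0 := hP.X0 I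
    have hg := (hGK K χ.k (X I) χ.ν s χ.real_k hx0 χ.norm_zero hs0).2
    have hg' : ∫ p, Qk K χ.k χ.ν s (X I) p =
      ((2 : ℂ) ^ (nrRealPlaces K + nrComplexPlaces K))⁻¹ * gG K χ.k χ.ν s *
        (((|Algebra.norm ℚ (X I)| : ℚ) : ℝ) : ℂ) ^ (-s) * (ag χ.k (X I) * ph χ.ν (X I)) := hg
    have hid : idl K M (X I) = I.1 := by
      have := hP.idl_eq d_ID hM (I, 1)
      simpa using this
    have hn : (((|Algebra.norm ℚ (X I)| : ℚ) : ℝ) : ℂ) ^ (-s) =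
        (Ideal.absNorm I.1 : ℂ) ^ (-s) * ((FractionalIdeal.absNorm M : ℝ) : ℂ) ^ (-s) := by
      rw [(hX1 I).2, Complex.ofReal_mul, Complex.mul_cpow_ofReal_nonneg (by positivity) hMn.le,
        Complex.ofReal_natCast]
    have ha : (starRingEnd ℂ) (ag χ.k (X I)) * ag χ.k (X I) = 1 := by
      rw [mul_comm, Complex.mul_conj, Complex.normSq_eq_norm_sq, (hAG K χ.k).2.1 _ hx0]
      norm_num
    have hp : (starRingEnd ℂ) (ph χ.ν (X I)) * ph χ.ν (X I) = 1 := by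
      rw [mul_comm, Complex.mul_conj, Complex.normSq_eq_norm_sq, (hPU K).2.2.2.2.2.2 χ.ν (X I)]
      norm_num
    rw [hg', h1 (X I) (hXM1 I) hx0, hid, hn]
    calc (starRingEnd ℂ) (ag χ.k (X I)) * (starRingEnd ℂ) (ph χ.ν (X I)) * χ.ψ I.1 *
          (((2 : ℂ) ^ (nrRealPlaces K + nrComplexPlaces K))⁻¹ * gG K χ.k χ.ν s *
          ((Ideal.absNorm I.1 : ℂ) ^ (-s) * ((FractionalIdeal.absNorm M : ℝ) : ℂ) ^ (-s)) *
          (ag χ.k (X I) * ph χ.ν (X I)))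
        = ((starRingEnd ℂ) (ag χ.k (X I)) * ag χ.k (X I)) *
          ((starRingEnd ℂ) (ph χ.ν (X I)) * ph χ.ν (X I)) *
          ((((2 : ℂ) ^ (nrRealPlaces K + nrComplexPlaces K))⁻¹ * gG K χ.k χ.ν s *
          ((FractionalIdeal.absNorm M : ℝ) : ℂ) ^ (-s)) *
          (χ.ψ I.1 * (Ideal.absNorm I.1 : ℂ) ^ (-s))) := by ring
      _ = _ := by rw [ha, hp, one_mul, one_mul]
  simp only [hval]
  rw [tsum_mul_left]
  unfold cw
  push_cast
  ring

end Pool.Agent.H90.GLB
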