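import Pool.Agent.H23.LC.Targets
import Pool.Agent.H47.GLA.UZ1
import Pool.Agent.H20.HKI.Leaf
import Pool.Agent.H63.HK.DS

/-!
# Board glb_modules, modules MK and MM: unfolding
-/

set_option autoImplicit false

open NumberField NumberField.InfinitePlace NumberField.Units
  NumberField.Units.dirichletUnitTheorem MeasureTheory Set Filter Complex
open scoped nonZeroDivisors ENNReal

namespace Pool.Agent.H90.GLB

open Pool.Agent.H25.HK Pool.Agent.H23.LB Pool.Agent.H23.LC Pool.Agent.H20.HKI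
open Pool.Agent.H28.RC (Rep ft idl)
open Pool.Agent.H47.GLA (mu lg unf_norm unf_int)
open Pool.Agent.H19.RC (Par sumM)

section
open scoped Classical

/-- unfolding of a series over the units and a countable set -/
theorem unfold_gen (K : Type) [Field K] [NumberField K] {J : Type}
    [Countable (J × (𝓞 K)ˣ)] [Countable (𝓞 K)ˣ] (Q : J → ℝ × logSpace K → ℂ)
    (hQc : ∀ j, Continuous (Q j)) (hQs : ∑' j, ∫⁻ p, ‖Q j p‖ₑ ≠ ∞)
    (g : ℝ × logSpace K → ℂ) (hgc : Continuous g)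
    (hHS : ∀ q, HasSum (fun p : J × (𝓞 K)ˣ => Q p.1 (q.1, q.2 + lg K p.2)) (g q)) :
    Integrable g (mu K) ∧ ∫ q, g q ∂(mu K) = (torsionOrder K : ℂ) * ∑' j, ∫ p, Q j p := by
  have hFD := Pool.Agent.H66.HK.fd
  have hUN := Pool.Agent.H41.HK.un
  set F : (J × (𝓞 K)ˣ) → ℝ × logSpace K → ℂ := fun p q => Q p.1 (q.1, q.2 + lg K p.2) with hF
  have hQi : ∀ j, Integrable (Q j) := fun j =>
    ⟨(hQc j).aestronglyMeasurable, lt_top_iff_ne_top.2 (ENNReal.ne_top_of_tsum_ne_top hQs j)⟩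
  have hFc : ∀ p, Continuous (F p) := by
    intro p
    have := hQc p.1
    simp only [hF]
    fun_prop
  have htot : ∑' p : J × (𝓞 K)ˣ, ∫⁻ q, ‖F p q‖ₑ ∂(mu K) ≠ ∞ := by
    rw [ENNReal.tsum_prod']
    have h1 : ∀ j : J, ∑' u : (𝓞 K)ˣ, ∫⁻ q, ‖F (j, u) q‖ₑ ∂(mu K) =
        (torsionOrder K : ℝ≥0∞) * ∫⁻ p, ‖Q j p‖ₑ := fun j =>
      unf_norm K hFD hUN (Q j) (hQc j)
    simp only [h1]
    rw [ENNReal.tsum_mul_left]
    exact ENNReal.mul_ne_top (ENNReal.natCast_ne_top _) hQs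
  have hsR := ENNReal.summable_toReal htot
  have hsI : Summable (fun p : J × (𝓞 K)ˣ => ∫ q, F p q ∂(mu K)) := by
    refine Summable.of_norm_bounded hsR fun p => ?_
    refine (norm_integral_le_integral_norm (F p)).trans (le_of_eq ?_)
    rw [integral_norm_eq_lintegral_enorm (hFc p).aestronglyMeasurable]
  have hgi : Integrable g (mu K) := by
    refine ⟨hgc.aestronglyMeasurable, ?_⟩
    have h1 : ∫⁻ q, ‖g q‖ₑ ∂(mu K) ≤ ∫⁻ q, ∑' p : J × (𝓞 K)ˣ, ‖F p q‖ₑ ∂(mu K) := by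
      refine lintegral_mono fun q => ?_
      simp only
      rw [← (hHS q).tsum_eq]
      exact enorm_tsum_le_tsum_enorm
    refine lt_of_le_of_lt h1 ?_
    rw [lintegral_tsum fun p => (hFc p).measurable.enorm.aemeasurable]
    exact lt_top_iff_ne_top.2 htot
  refine ⟨hgi, ?_⟩
  have hint : ∫ q, g q ∂(mu K) = ∑' p : J × (𝓞 K)ˣ, ∫ q, F p q ∂(mu K) := by
    have h1 : ∫ q, g q ∂(mu K) = ∫ q, ∑' p : J × (𝓞 K)ˣ, F p q ∂(mu K) :=
      integral_congr_ae (ae_of_all _ fun q => (hHS q).tsum_eq.symm)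
    rw [h1, integral_tsum (fun p => (hFc p).aestronglyMeasurable) htot]
  rw [hint, hsI.tsum_prod, ← tsum_mul_left]
  refine tsum_congr fun j => ?_
  exact (unf_int K hFD hUN (Q j) (hQc j) (hQi j)).2.2

end

section
open scoped Classical

variable (K : Type) [Field K] [NumberField K]

/-- the Gamma integrand -/
noncomputable def Qk (k : InfinitePlace K → ℤ) (ν : InfinitePlace K → ℝ) (s : ℂ) (x : K)
    (p : ℝ × logSpace K) : ℂ :=
  wk K k (yc K p.1 p.2) x * ((Real.exp (-Real.pi * qK K (yc K p.1 p.2) x) : ℝ) : ℂ) *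
    (cexp (s * p.1) * ec K ν p.2)

/-- the absolute value of the weight -/
noncomputable def wa (k : InfinitePlace K → ℤ) (y : InfinitePlace K → ℝ) (x : K) : ℝ :=
  ∏ v : InfinitePlace K, (Real.exp (y v / 2) * v x) ^ (k v).natAbs

theorem wa_nonneg (k : InfinitePlace K → ℤ) (y : InfinitePlace K → ℝ) (x : K) :
    0 ≤ wa K k y x :=
  Finset.prod_nonneg fun v _ => pow_nonneg (mul_nonneg (Real.exp_pos _).le (apply_nonneg v x)) _

theorem wk_eq (k : InfinitePlace K → ℤ) (y : InfinitePlace K → ℝ) (x : K) :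
    wk K k y x = ((wa K k y x : ℝ) : ℂ) * ag k x := by
  unfold wk wa
  push_cast
  rfl

theorem wa_cont (k : InfinitePlace K → ℤ) (x : K) : Continuous (fun y => wa K k y x) := by
  unfold wa
  fun_prop

theorem wa_neg (k : InfinitePlace K → ℤ) (y : InfinitePlace K → ℝ) (x : K) :
    wa K (-k) y x = wa K k y x := by
  unfold wa
  refine Finset.prod_congr rfl fun v _ => ?_
  rw [Pi.neg_apply, Int.natAbs_neg]

theorem wa_unit (k : InfinitePlace K → ℤ) (τ : ℝ) (z : logSpace K) (u : (𝓞 K)ˣ) (x : K) :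
    wa K k (yc K τ (z + lg K u)) x = wa K k (yc K τ z) ((u : K) * x) := by
  unfold wa
  refine Finset.prod_congr rfl fun v _ => ?_
  have h1 : yc K τ (z + lg K u) v = yc K τ z v + 2 * Real.log (v (u : K)) :=
    (b_YC K).2.2.1 τ z u v
  have h2 : 0 < v (u : K) := by
    rw [InfinitePlace.pos_iff]
    simp
  rw [h1, add_div, Real.exp_add, mul_div_cancel_left₀ _ (two_ne_zero), Real.exp_log h2, map_mul]
  ring

theorem Qk_cont (hPU : Pool.Agent.H23.LB.T_PU) (k : InfinitePlace K → ℤ) (ν : InfinitePlace K → ℝ) (s : ℂ)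
    (x : K) : Continuous (Qk K k ν s x) := by
  have h1 := (b_YC K).2.2.2.2.1
  have h2 := (Pool.Agent.H66.HK.continuous_qK K x).comp h1
  have h3 := (wa_cont K k x).comp h1
  have h4 : Continuous (fun p : ℝ × logSpace K => ec K ν p.2) :=
    ((hPU K).2.2.2.2.1 ν).1.comp continuous_snd
  have h5 : Continuous (fun p : ℝ × logSpace K => qK K (yc K p.1 p.2) x) := h2
  have h6 : Continuous (fun p : ℝ × logSpace K => wa K k (yc K p.1 p.2) x) := h3
  have h7 : Continuous (fun p : ℝ × logSpace K => ((wa K k (yc K p.1 p.2) x : ℝ) : ℂ)) :=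
    Complex.continuous_ofReal.comp h6
  have h8 : Continuous (fun p : ℝ × logSpace K =>
      ((Real.exp (-Real.pi * qK K (yc K p.1 p.2) x) : ℝ) : ℂ)) :=
    Complex.continuous_ofReal.comp (by fun_prop)
  unfold Qk
  simp only [wk_eq]
  fun_prop

theorem Qk_norm (hAG : U_AG) (hPU : Pool.Agent.H23.LB.T_PU) (k : InfinitePlace K → ℤ)
    (ν : InfinitePlace K → ℝ) (s : ℂ) (x : K) (hx : x ≠ 0) (p : ℝ × logSpace K) :
    ‖Qk K k ν s x p‖ = wa K k (yc K p.1 p.2) x *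
      Real.exp (-Real.pi * qK K (yc K p.1 p.2) x) * Real.exp (s.re * p.1) := by
  unfold Qk
  rw [wk_eq, norm_mul, norm_mul, norm_mul, norm_mul, ((hPU K).2.2.2.2.1 ν).2,
    (hAG K k).2.1 x hx, mul_one, mul_one, Complex.norm_real, Complex.norm_real,
    Real.norm_of_nonneg (wa_nonneg K k _ x), Real.norm_of_nonneg (Real.exp_pos _).le,
    Complex.norm_exp]
  congr 2
  simp

theorem ec_zero (z : logSpace K) : ec K 0 z = 1 := by
  unfold ec pr
  simp

/-- the integral of the absolute value -/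
theorem Qk_int_norm (hGK : U_GK) (hAG : U_AG) (hPU : Pool.Agent.H23.LB.T_PU) (k : InfinitePlace K → ℤ)
    (hk : ∀ v : InfinitePlace K, v.IsReal → k v = 0 ∨ k v = 1) (s : ℂ) (hs : 0 < s.re) :
    ∃ C : ℝ, 0 ≤ C ∧ ∀ (x : K), x ≠ 0 → ∀ (k' : InfinitePlace K → ℤ), (k' = k ∨ k' = -k) →
      ∀ (ν : InfinitePlace K → ℝ), ∫⁻ p, ‖Qk K k' ν s x p‖ₑ ≤
      ENNReal.ofReal (C * ‖(((|Algebra.norm ℚ x| : ℚ) : ℝ) : ℂ) ^ (-(s.re : ℂ))‖) := by
  refine ⟨‖((2 : ℂ) ^ (nrRealPlaces K + nrComplexPlaces K))⁻¹ * gG K k 0 (s.re : ℂ)‖,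
    norm_nonneg _, fun x hx k' hk' ν => ?_⟩
  have hwa : ∀ y, wa K k' y x = wa K k y x := by
    intro y
    rcases hk' with rfl | rfl
    · rfl
    · exact wa_neg K k y x
  have h1 := hGK K k x 0 (s.re : ℂ) hk hx (by simp) (by simpa using hs)
  have h1i : Integrable (Qk K k 0 (s.re : ℂ) x) := h1.1
  have h1v : ∫ p, Qk K k 0 (s.re : ℂ) x p = ((2 : ℂ) ^ (nrRealPlaces K + nrComplexPlaces K))⁻¹ *
      gG K k 0 (s.re : ℂ) * (((|Algebra.norm ℚ x| : ℚ) : ℝ) : ℂ) ^ (-(s.re : ℂ)) *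
        (ag k x * ph 0 x) := h1.2
  have hag := (hAG K k).2.1 x hx
  have hag0 : ag k x ≠ 0 := by
    intro h
    rw [h, norm_zero] at hag
    exact zero_ne_one hag
  have h2 : ∀ p, Qk K k 0 (s.re : ℂ) x p = ((‖Qk K k 0 (s.re : ℂ) x p‖ : ℝ) : ℂ) * ag k x := by
    intro p
    rw [Qk_norm K hAG hPU k 0 _ x hx p]
    unfold Qk
    rw [wk_eq, ec_zero, mul_one]
    push_cast
    simp only [Complex.ofReal_re]
    ring
  have h3 : ∀ p, ‖Qk K k' ν s x p‖ = ‖Qk K k 0 (s.re : ℂ) x p‖ := by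
    intro p
    rw [Qk_norm K hAG hPU k' ν s x hx p, Qk_norm K hAG hPU k 0 _ x hx p, hwa, Complex.ofReal_re]
  have h4 : ∫⁻ p, ‖Qk K k' ν s x p‖ₑ = ∫⁻ p, ‖Qk K k 0 (s.re : ℂ) x p‖ₑ := by
    refine lintegral_congr fun p => ?_
    rw [← ofReal_norm, ← ofReal_norm, h3]
  have h5 : ∫⁻ p, ‖Qk K k 0 (s.re : ℂ) x p‖ₑ =
      ENNReal.ofReal (∫ p, ‖Qk K k 0 (s.re : ℂ) x p‖) :=
    (ofReal_integral_norm_eq_lintegral_enorm h1i).symm
  have h6 : ∫ p, ‖Qk K k 0 (s.re : ℂ) x p‖ = ‖∫ p, Qk K k 0 (s.re : ℂ) x p‖ := by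
    have h7 : ∫ p, Qk K k 0 (s.re : ℂ) x p =
        ((∫ p, ‖Qk K k 0 (s.re : ℂ) x p‖ : ℝ) : ℂ) * ag k x := by
      rw [← integral_complex_ofReal, ← integral_mul_const]
      exact integral_congr_ae (ae_of_all _ h2)
    rw [h7, norm_mul, hag, mul_one, Complex.norm_real,
      Real.norm_of_nonneg (integral_nonneg fun p => norm_nonneg _)]
  rw [h4, h5, h6, h1v]
  refine ENNReal.ofReal_le_ofReal (le_of_eq ?_)
  rw [norm_mul, norm_mul, norm_mul (ag k x), hag, (hPU K).2.2.2.2.2.2 0 x, mul_one, mul_one]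

end

end Pool.Agent.H90.GLB
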