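import Pool.Agent.H90.GLB.UNF

/-!
# Board glb_modules, modules MK and MM: the theta series of one class
-/

set_option autoImplicit false

open NumberField NumberField.InfinitePlace NumberField.Units
  NumberField.Units.dirichletUnitTheorem MeasureTheory Set Filter Complex
open scoped nonZeroDivisors ENNReal

namespace Pool.Agent.H90.GLB

open Pool.Agent.H25.HK Pool.Agent.H23.LB Pool.Agent.H23.LC Pool.Agent.H20.HKI
open Pool.Agent.H28.RC (Rep ft idl)
open Pool.Agent.H47.GLA (mu lg unf_norm unf_int)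
open Pool.Agent.H19.RC (Par sumM)

section
open scoped Classical

variable (K : Type) [Field K] [NumberField K]

/-- a term of the theta series -/
noncomputable def tmk (k : InfinitePlace K → ℤ) (c : K → ℂ) (y : InfinitePlace K → ℝ) (x : K) :
    ℂ :=
  c x * (wk K k y x * ((Real.exp (-Real.pi * qK K y x) : ℝ) : ℂ))

/-- the constant term -/
noncomputable def ct (k : InfinitePlace K → ℤ) (c : K → ℂ) : ℂ := if k = 0 then c 0 else 0

theorem tmk_zero (hSK : U_SK) (k : InfinitePlace K → ℤ) (c : K → ℂ)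
    (y : InfinitePlace K → ℝ) : tmk K k c y 0 = ct K k c := by
  unfold tmk ct
  obtain ⟨-, -, h3, -⟩ := hSK K k
  split_ifs with h
  · rw [(h3 y).2 h]
    simp [qK]
  · rw [(h3 y).1 h]
    simp

theorem tmk_summable (hSK : U_SK) (k : InfinitePlace K → ℤ) (M : FI K) (hM : M ≠ 0)
    (c : K → ℂ) (B : ℝ) (hB : ∀ x ∈ M, ‖c x‖ ≤ B) (y : InfinitePlace K → ℝ) :
    Summable fun x : {x : K // x ∈ M} => tmk K k c y x := by
  refine Summable.of_norm_bounded (((hSK K k).2.1 M hM y).mul_left B) fun x => ?_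
  unfold tmk
  rw [norm_mul, norm_mul, Complex.norm_real, Real.norm_of_nonneg (Real.exp_pos _).le]
  exact mul_le_mul_of_nonneg_right (hB x x.2) (by positivity)

theorem tmk_unit (hAG : U_AG) (hPU : Pool.Agent.H23.LB.T_PU) (k : InfinitePlace K → ℤ)
    (ν : InfinitePlace K → ℝ) (M : FI K) (c : K → ℂ)
    (hcu : ∀ u : (𝓞 K)ˣ, ∀ x ∈ M, x ≠ 0 → c ((u : K) * x) =
      (starRingEnd ℂ) (ag k (u : K)) * (starRingEnd ℂ) (ph ν (u : K)) * c x)
    (s : ℂ) (u : (𝓞 K)ˣ) (x : K) (hx : x ∈ M) (hx0 : x ≠ 0) (q : ℝ × logSpace K) :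
    c x * Qk K k ν s x (q.1, q.2 + lg K u) =
      cexp (s * q.1) * ec K ν q.2 * tmk K k c (yc K q.1 q.2) ((u : K) * x) := by
  have hu : (u : K) ≠ 0 := by simp
  have h4 : ec K ν (q.2 + lg K u) = (starRingEnd ℂ) (ph ν (u : K)) * ec K ν q.2 :=
    (hPU K).2.2.2.1 ν q.2 u
  have h5 : qK K (yc K q.1 (q.2 + lg K u)) x = qK K (yc K q.1 q.2) ((u : K) * x) :=
    (b_UI K M q.1 q.2 u).1 x
  have h6 := wa_unit K k q.1 q.2 u x
  have h7 := (hAG K k).1 (u : K) x hu hx0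
  have h8 : (starRingEnd ℂ) (ag k (u : K)) * ag k (u : K) = 1 := by
    rw [mul_comm, Complex.mul_conj, Complex.normSq_eq_norm_sq, (hAG K k).2.1 _ hu]
    norm_num
  unfold Qk tmk
  rw [wk_eq, wk_eq, h4, h5, h6, h7, hcu u x hx hx0]
  calc c x * (((wa K k (yc K q.1 q.2) ((u : K) * x) : ℝ) : ℂ) * ag k x *
        ((Real.exp (-Real.pi * qK K (yc K q.1 q.2) ((u : K) * x)) : ℝ) : ℂ) *
        (cexp (s * q.1) * ((starRingEnd ℂ) (ph ν (u : K)) * ec K ν q.2)))
      = 1 * (c x * (((wa K k (yc K q.1 q.2) ((u : K) * x) : ℝ) : ℂ) * ag k x *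
        ((Real.exp (-Real.pi * qK K (yc K q.1 q.2) ((u : K) * x)) : ℝ) : ℂ) *
        (cexp (s * q.1) * ((starRingEnd ℂ) (ph ν (u : K)) * ec K ν q.2)))) := by rw [one_mul]
    _ = _ := by
      rw [← h8]
      ring

/-- the theta series of one class -/
noncomputable def gg (k : InfinitePlace K → ℤ) (ν : InfinitePlace K → ℝ) (M : FI K) (c : K → ℂ)
    (s : ℂ) (q : ℝ × logSpace K) : ℂ :=
  cexp (s * q.1) * ec K ν q.2 * (tk K k M c (yc K q.1 q.2) - ct K k c)

theorem gg_cont (hSK : U_SK) (hPU : Pool.Agent.H23.LB.T_PU) (k : InfinitePlace K → ℤ)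
    (ν : InfinitePlace K → ℝ) (M : FI K) (hM : M ≠ 0) (c : K → ℂ) (B : ℝ)
    (hB : ∀ x ∈ M, ‖c x‖ ≤ B) (s : ℂ) : Continuous (gg K k ν M c s) := by
  have h1 := (b_YC K).2.2.2.2.1
  have h2 := (hSK K k).2.2.2 M c hM ⟨B, hB⟩
  have h3 : Continuous (fun q : ℝ × logSpace K => tk K k M c (yc K q.1 q.2)) := h2.comp h1
  have h4 : Continuous (fun q : ℝ × logSpace K => ec K ν q.2) :=
    ((hPU K).2.2.2.2.1 ν).1.comp continuous_snd
  unfold gg
  fun_prop

theorem lg_inv (u : (𝓞 K)ˣ) : lg K u⁻¹ = - lg K u := by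
  unfold lg
  rw [ofMul_inv, map_neg]

/-- the reflection of the second coordinate -/
noncomputable def rf : (ℝ × logSpace K) ≃ᵐ (ℝ × logSpace K) :=
  MeasurableEquiv.prodCongr (MeasurableEquiv.refl ℝ) (MeasurableEquiv.neg (logSpace K))

theorem rf_mp : MeasurePreserving (rf K) volume volume := by
  unfold rf
  rw [Measure.volume_eq_prod]
  exact (MeasurePreserving.id volume).prod (Measure.measurePreserving_neg volume)

/-- the integral of the theta series of one class, and of its reflection -/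
theorem core (hGK : U_GK) (hSK : U_SK) (hAG : U_AG) (hPU : Pool.Agent.H23.LB.T_PU)
    (k k' : InfinitePlace K → ℤ) (hk : ∀ v : InfinitePlace K, v.IsReal → k v = 0 ∨ k v = 1)
    (hk' : k' = k ∨ k' = -k) (ν : InfinitePlace K → ℝ) (M : FI K) (hM : M ≠ 0) (c : K → ℂ)
    (B : ℝ) (hB : ∀ x ∈ M, ‖c x‖ ≤ B)
    (hcu : ∀ u : (𝓞 K)ˣ, ∀ x ∈ M, x ≠ 0 → c ((u : K) * x) =
      (starRingEnd ℂ) (ag k' (u : K)) * (starRingEnd ℂ) (ph ν (u : K)) * c x)
    (X : {I : Ideal (𝓞 K) // Pri K M I} → K) (hP : Par M X)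
    (hN : ∀ I, ((|Algebra.norm ℚ (X I)| : ℚ) : ℝ) =
        (Ideal.absNorm I.1 : ℝ) * (FractionalIdeal.absNorm M : ℝ))
    (s : ℂ) (hs : 1 < s.re) :
    (Integrable (gg K k' ν M c s) (mu K) ∧ ∫ q, gg K k' ν M c s q ∂(mu K) =
      (torsionOrder K : ℂ) * ∑' I, c (X I) * ∫ p, Qk K k' ν s (X I) p) ∧
    (Integrable (fun q => gg K k' ν M c s (q.1, -q.2)) (mu K) ∧
      ∫ q, gg K k' ν M c s (q.1, -q.2) ∂(mu K) =
      (torsionOrder K : ℂ) * ∑' I, c (X I) * ∫ p, Qk K k' ν s (X I) p) := by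
  have hs0 : 0 < s.re := by linarith
  have hco : Countable ({I : Ideal (𝓞 K) // Pri K M I} × (𝓞 K)ˣ) := hP.countable d_SM hM
  have hXM : ∀ I, X I ∈ M := by
    intro I
    have := hP.XM I 1
    simpa using this
  have hMn : (0 : ℝ) < (FractionalIdeal.absNorm M : ℝ) := (b_DU K M hM).2.2.2.1
  have hinj : Function.Injective (fun J : {I : Ideal (𝓞 K) // Pri K M I} =>
      (⟨J.1, J.2.1⟩ : {I : Ideal (𝓞 K) // I ≠ ⊥})) := by
    intro J J' h
    have h' : J.1 = J'.1 := by simpa using h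
    exact Subtype.ext h'
  have hsum : Summable fun J : {I : Ideal (𝓞 K) // Pri K M I} =>
      ‖(((|Algebra.norm ℚ (X J)| : ℚ) : ℝ) : ℂ) ^ (-(s.re : ℂ))‖ := by
    have h1 := (Pool.Agent.H63.HK.ds K (s.re : ℂ) (by simpa using hs)).1
    have h3 := h1.comp_injective hinj
    refine (h3.mul_right ‖((FractionalIdeal.absNorm M : ℝ) : ℂ) ^ (-(s.re : ℂ))‖).congr
      fun J => ?_
    rw [hN, Complex.ofReal_mul, Complex.mul_cpow_ofReal_nonneg (by positivity) hMn.le, norm_mul]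
    simp only [Function.comp, Complex.ofReal_natCast]
  obtain ⟨C, hC0, hC⟩ := Qk_int_norm K hGK hAG hPU k hk s hs0
  set Q : {I : Ideal (𝓞 K) // Pri K M I} → ℝ × logSpace K → ℂ := fun I p =>
    c (X I) * Qk K k' ν s (X I) p with hQ
  have hQc : ∀ I, Continuous (Q I) := fun I =>
    continuous_const.mul (Qk_cont K hPU k' ν s (X I))
  have hB0 : 0 ≤ B := (norm_nonneg _).trans (hB 0 (zero_mem (M : Submodule (𝓞 K) K)))
  have hQs : ∑' I, ∫⁻ p, ‖Q I p‖ₑ ≠ ∞ := by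
    have h1 : ∀ I, ∫⁻ p, ‖Q I p‖ₑ ≤ ENNReal.ofReal
        (B * (C * ‖(((|Algebra.norm ℚ (X I)| : ℚ) : ℝ) : ℂ) ^ (-(s.re : ℂ))‖)) := by
      intro I
      rw [ENNReal.ofReal_mul hB0]
      calc ∫⁻ p, ‖Q I p‖ₑ = ‖c (X I)‖ₑ * ∫⁻ p, ‖Qk K k' ν s (X I) p‖ₑ := by
            simp only [hQ, enorm_mul]
            rw [lintegral_const_mul' _ _ enorm_ne_top]
        _ ≤ _ := by
            refine mul_le_mul' ?_ (hC (X I) (hP.X0 I) k' hk' ν)
            rw [← ofReal_norm]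
            exact ENNReal.ofReal_le_ofReal (hB _ (hXM I))
    refine ne_top_of_le_ne_top ?_ (ENNReal.tsum_le_tsum h1)
    exact ((hsum.mul_left C).mul_left B).tsum_ofReal_ne_top
  have hHS : ∀ q, HasSum (fun p : {I : Ideal (𝓞 K) // Pri K M I} × (𝓞 K)ˣ =>
      Q p.1 (q.1, q.2 + lg K p.2)) (gg K k' ν M c s q) := by
    intro q
    have h1 := sumM (E := ℂ) (tmk K k' c (yc K q.1 q.2)) hP.X0 hP.XM hP.un
      (tmk_summable K hSK k' M hM c B hB (yc K q.1 q.2)).hasSum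
    rw [tmk_zero K hSK] at h1
    have h2 := h1.mul_left (cexp (s * q.1) * ec K ν q.2)
    refine h2.congr_fun fun p => ?_
    exact tmk_unit K hAG hPU k' ν M c hcu s p.2 (X p.1) (hXM p.1) (hP.X0 p.1) q
  by_cases hne : Nonempty {I : Ideal (𝓞 K) // Pri K M I}
  swap
  · exfalso
    -- the class contains an ideal
    obtain ⟨x, hx, hx0⟩ : ∃ x ∈ M, x ≠ 0 := by
      by_contra hcon
      push Not at hcon
      apply hM
      rw [FractionalIdeal.eq_zero_iff]
      exact hcon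
    obtain ⟨p, -, -⟩ := hP.un x hx hx0
    exact hne ⟨p.1⟩
  obtain ⟨I0⟩ := hne
  have hcu' : Countable (𝓞 K)ˣ :=
    Function.Injective.countable (f := fun u : (𝓞 K)ˣ =>
      ((I0, u) : {I : Ideal (𝓞 K) // Pri K M I} × (𝓞 K)ˣ)) fun u v h => (Prod.ext_iff.1 h).2
  have hgc := gg_cont K hSK hPU k' ν M hM c B hB s
  have hA := unfold_gen K Q hQc hQs (gg K k' ν M c s) hgc hHS
  have hval : ∀ I, ∫ p, Q I p = c (X I) * ∫ p, Qk K k' ν s (X I) p := fun I => by
    simp only [hQ]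
    rw [integral_const_mul]
  simp only [hval] at hA
  refine ⟨hA, ?_⟩
  -- the reflection
  set Q' : {I : Ideal (𝓞 K) // Pri K M I} → ℝ × logSpace K → ℂ := fun I p =>
    Q I (p.1, -p.2) with hQ'
  have hQc' : ∀ I, Continuous (Q' I) := by
    intro I
    have := hQc I
    simp only [hQ']
    fun_prop
  have hrf : ∀ p : ℝ × logSpace K, rf K p = (p.1, -p.2) := fun p => rfl
  have hmp := rf_mp K
  have hQs' : ∑' I, ∫⁻ p, ‖Q' I p‖ₑ ≠ ∞ := by
    have h1 : ∀ I, ∫⁻ p, ‖Q' I p‖ₑ = ∫⁻ p, ‖Q I p‖ₑ := by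
      intro I
      have h2 := hmp.lintegral_comp (f := fun p => ‖Q I p‖ₑ) (hQc I).measurable.enorm
      rw [← h2]
      rfl
    simp only [h1]
    exact hQs
  have hHS' : ∀ q : ℝ × logSpace K, HasSum (fun p : {I : Ideal (𝓞 K) // Pri K M I} × (𝓞 K)ˣ =>
      Q' p.1 (q.1, q.2 + lg K p.2)) (gg K k' ν M c s (q.1, -q.2)) := by
    intro q
    have h1 := hHS (q.1, -q.2)
    have h2 := (Equiv.prodCongr (Equiv.refl {I : Ideal (𝓞 K) // Pri K M I})
      (Equiv.inv (𝓞 K)ˣ)).hasSum_iff.2 h1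
    refine h2.congr_fun fun p => ?_
    simp only [hQ', Function.comp, Equiv.prodCongr_apply, Prod.map, Equiv.refl_apply,
      Equiv.inv_apply, lg_inv]
    congr 2
    abel
  have hgc' : Continuous (fun q : ℝ × logSpace K => gg K k' ν M c s (q.1, -q.2)) := by
    fun_prop
  have hA' := unfold_gen K Q' hQc' hQs' (fun q => gg K k' ν M c s (q.1, -q.2)) hgc' hHS'
  have hval' : ∀ I, ∫ p, Q' I p = c (X I) * ∫ p, Qk K k' ν s (X I) p := fun I => by
    rw [← hval I]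
    exact hmp.integral_comp' (g := fun p => Q I p)
  simp only [hval'] at hA'
  exact hA'

/-- the Mellin transform as an integral over the strip -/
theorem mellin_core (hPU : Pool.Agent.H23.LB.T_PU) (ν : InfinitePlace K → ℝ)
    (h : ℝ → logSpace K → ℂ) (C0 : ℂ) (s : ℂ) (hh : ∀ τ, Continuous (h τ))
    (hi : Integrable (fun q : ℝ × logSpace K =>
      cexp (s * q.1) * ec K ν q.2 * (h q.1 q.2 - C0)) (mu K)) :
    mellin (fun t => (∫ z in Fd K, ec K ν z * h (Real.log t) z) - C0 * ∫ z in Fd K, ec K ν z) s =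
      ∫ q : ℝ × logSpace K, cexp (s * q.1) * ec K ν q.2 * (h q.1 q.2 - C0) ∂(mu K) := by
  have hec := ((hPU K).2.2.2.2.1 ν).1
  have h1 : ∀ τ : ℝ, (∫ z in Fd K, ec K ν z * h τ z) - C0 * ∫ z in Fd K, ec K ν z =
      ∫ z in Fd K, ec K ν z * (h τ z - C0) := by
    intro τ
    have hc := hh τ
    rw [← integral_const_mul, ← integral_sub]
    · refine integral_congr_ae (ae_of_all _ fun z => ?_)
      simp only
      ring
    · exact Pool.Agent.H19.RC.Fd_int Pool.Agent.H66.HK.fd (by fun_prop)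
    · exact Pool.Agent.H19.RC.Fd_int Pool.Agent.H66.HK.fd (by fun_prop)
  rw [Pool.Agent.H66.HK.mellin_exp]
  simp only [Real.log_exp, h1]
  have hi' : Integrable (fun q : ℝ × logSpace K =>
      cexp (s * q.1) * ec K ν q.2 * (h q.1 q.2 - C0))
      ((volume : Measure ℝ).prod (volume.restrict (Fd K))) := hi
  unfold Pool.Agent.H47.GLA.mu
  rw [integral_prod _ hi']
  refine integral_congr_ae (ae_of_all _ fun τ => ?_)
  simp only
  rw [← integral_const_mul]
  refine integral_congr_ae (ae_of_all _ fun z => ?_)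
  simp only
  ring

end

end Pool.Agent.H90.GLB
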